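import Pool.Agent.H93.PF.TargetsB

/-!
# Board `pfs_modules`, row ENT: entropy and the number of words
-/

set_option autoImplicit false

open MeasureTheory Filter Topology Finset Pool.Agent.H93.PF

namespace Pool.Agent.H49.PF

theorem mem_FF {d : ℕ} {m : ℕ → ℕ} {n : ℕ} {w : Fin n → Fin d} : w ∈ FF d m n ↔ Gd m w := by
  classical
  unfold FF
  simp

/-- the words of the shift have no forbidden repetition -/
theorem gd_of_lang (hMMF : T_MMF) {d : ℕ} {β : ℝ} {plus : Bool} (hβ : 1 < β) {n : ℕ}
    {w : Fin n → Fin d} (hw : w ∈ lang (PFS d β plus) n) : Gd (mm β plus) w := by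
  obtain ⟨x, hx, i, hwx⟩ := hw
  intro q i' hq hi' hper
  have hF : Forb β plus q (mm β plus q) := (hMMF β plus q (mm β plus q) hβ hq).1.2 le_rfl
  obtain ⟨j, h1, h2, h3⟩ := hx (i + i') q (mm β plus q) hq hF
  have e1 : ((j - i).toNat : ℤ) = j - i := Int.toNat_of_nonneg (by omega)
  have hlt : (j - i).toNat + q < n := by omega
  have h4 := hper (j - i).toNat hlt (by omega) (by omega)
  rw [hwx, hwx] at h4
  apply h3
  have e2 : i + (((⟨(j - i).toNat + q, hlt⟩ : Fin n) : ℕ) : ℤ) = j + q := by
    push_cast
    omega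
  have e3 : i + (((⟨(j - i).toNat, by omega⟩ : Fin n) : ℕ) : ℤ) = j := by
    push_cast
    omega
  rw [e2, e3] at h4
  exact h4

theorem ncard_lang_le (hMMF : T_MMF) (d : ℕ) (β : ℝ) (plus : Bool) (hβ : 1 < β) (n : ℕ) :
    (lang (PFS d β plus) n).ncard ≤ (FF d (mm β plus) n).card := by
  rw [← Set.ncard_coe_finset]
  apply Set.ncard_le_ncard
  · intro w hw
    exact Finset.mem_coe.2 (mem_FF.2 (gd_of_lang hMMF hβ hw))
  · exact Finset.finite_toSet _

theorem card_add_le (d : ℕ) (m : ℕ → ℕ) (i j : ℕ) :
    (FF d m (i + j)).card ≤ (FF d m i).card * (FF d m j).card := by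
  classical
  rw [← Finset.card_product]
  apply Finset.card_le_card_of_injOn
    (fun w : Fin (i + j) → Fin d => ((fun a : Fin i => w (Fin.castAdd j a)),
      (fun a : Fin j => w (Fin.natAdd i a))))
  · intro w hw
    have hw' : Gd m w := mem_FF.1 (Finset.mem_coe.1 hw)
    refine Finset.mem_coe.2 (Finset.mem_product.2 ⟨mem_FF.2 ?_, mem_FF.2 ?_⟩)
    · intro q i' hq hi' hper
      apply hw' q i' hq (by omega)
      intro k hk h1 h2
      have h3 := hper k (by omega) h1 h2
      exact h3
    · intro q i' hq hi' hper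
      apply hw' q (i + i') hq (by omega)
      intro k hk h1 h2
      have h3 := hper (k - i) (by omega) (by omega) (by omega)
      have e1 : (Fin.natAdd i (⟨k - i + q, by omega⟩ : Fin j) : Fin (i + j)) = ⟨k + q, hk⟩ := by
        apply Fin.ext
        simp only [Fin.val_natAdd]
        omega
      have e2 : (Fin.natAdd i (⟨k - i, by omega⟩ : Fin j) : Fin (i + j)) = ⟨k, by omega⟩ := by
        apply Fin.ext
        simp only [Fin.val_natAdd]
        omega
      simp only [e1, e2] at h3
      exact h3
  · intro w _ w' _ h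
    have h1 := congrArg Prod.fst h
    have h2 := congrArg Prod.snd h
    funext a
    induction a using Fin.addCases with
    | left a => exact congrFun h1 a
    | right a => exact congrFun h2 a

theorem card_mul_add_le (d : ℕ) (m : ℕ → ℕ) (n k r : ℕ) :
    (FF d m (k * n + r)).card ≤ (FF d m n).card ^ k * (FF d m r).card := by
  induction k with
  | zero =>
    have e : 0 * n + r = r := by ring
    rw [e, pow_zero, one_mul]
  | succ k ih =>
    have e : (k + 1) * n + r = n + (k * n + r) := by ring
    rw [e]
    calc (FF d m (n + (k * n + r))).card ≤ (FF d m n).card * (FF d m (k * n + r)).card :=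
          card_add_le d m n (k * n + r)
      _ ≤ (FF d m n).card * ((FF d m n).card ^ k * (FF d m r).card) :=
          Nat.mul_le_mul_left _ ih
      _ = (FF d m n).card ^ (k + 1) * (FF d m r).card := by ring

theorem pf_ENT (hMMF : T_MMF) : T_ENT := by
  intro d β plus hβ hpos n
  set m := mm β plus with hm
  rcases Nat.eq_zero_or_pos n with rfl | hn
  · simp only [Nat.cast_zero, mul_zero, Real.exp_zero]
    exact_mod_cast hpos 0
  set a : ℕ → ℝ := fun k => ((FF d m k).card : ℝ) with ha
  have ha1 : ∀ k, 1 ≤ a k := fun k => by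
    have := hpos k
    simp only [ha]
    exact_mod_cast this
  have hla : ∀ k, 0 ≤ Real.log (a k) := fun k => Real.log_nonneg (ha1 k)
  have hn' : (0 : ℝ) < n := by exact_mod_cast hn
  set C : ℝ := ∑ r ∈ range n, Real.log (a r) with hC
  have hbd : ∀ N : ℕ, 0 < N → Real.log ((lang (PFS d β plus) N).ncard : ℝ) / N ≤
      Real.log (a n) / n + C / N := by
    intro N hN
    have hN' : (0 : ℝ) < N := by exact_mod_cast hN
    have h1 : Real.log ((lang (PFS d β plus) N).ncard : ℝ) ≤ Real.log (a N) := by
      rcases Nat.eq_zero_or_pos (lang (PFS d β plus) N).ncard with h0 | h0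
      · rw [h0]
        simp only [Nat.cast_zero, Real.log_zero]
        exact hla N
      · apply Real.log_le_log
        · exact_mod_cast h0
        · simp only [ha]
          exact_mod_cast ncard_lang_le hMMF d β plus hβ N
    have h2 : a N ≤ a n ^ (N / n) * a (N % n) := by
      have := card_mul_add_le d m n (N / n) (N % n)
      rw [mul_comm (N / n) n, Nat.div_add_mod] at this
      simp only [ha]
      exact_mod_cast this
    have h3 : Real.log (a N) ≤ ((N / n : ℕ) : ℝ) * Real.log (a n) + Real.log (a (N % n)) := by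
      calc Real.log (a N) ≤ Real.log (a n ^ (N / n) * a (N % n)) :=
            Real.log_le_log (lt_of_lt_of_le one_pos (ha1 N)) h2
        _ = ((N / n : ℕ) : ℝ) * Real.log (a n) + Real.log (a (N % n)) := by
            rw [Real.log_mul (pow_ne_zero _ (ne_of_gt (lt_of_lt_of_le one_pos (ha1 n))))
              (ne_of_gt (lt_of_lt_of_le one_pos (ha1 _))), Real.log_pow]
    have h4 : Real.log (a (N % n)) ≤ C :=
      Finset.single_le_sum (f := fun r => Real.log (a r)) (fun r _ => hla r)
        (Finset.mem_range.2 (Nat.mod_lt _ hn))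
    have h5 : ((N / n : ℕ) : ℝ) ≤ (N : ℝ) / n := Nat.cast_div_le
    have h6 : ((N / n : ℕ) : ℝ) * Real.log (a n) ≤ (N : ℝ) / n * Real.log (a n) :=
      mul_le_mul_of_nonneg_right h5 (hla n)
    rw [div_le_iff₀ hN']
    have h7 : (Real.log (a n) / n + C / N) * N = (N : ℝ) / n * Real.log (a n) + C := by
      field_simp
    rw [h7]
    linarith
  have hlim : Tendsto (fun N : ℕ => Real.log (a n) / n + C / N) atTop
      (𝓝 (Real.log (a n) / n)) := by
    have h1 : Tendsto (fun N : ℕ => C / (N : ℝ)) atTop (𝓝 0) := tendsto_const_div_atTop_nhds_zero_nat C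
    have h2 := (tendsto_const_nhds (x := Real.log (a n) / n)).add h1
    rw [add_zero] at h2
    exact h2
  have hle : topEnt (PFS d β plus) ≤ Real.log (a n) / n := by
    unfold topEnt
    rw [← hlim.limsup_eq]
    apply Filter.limsup_le_limsup
    · filter_upwards [Filter.eventually_gt_atTop 0] with N hN
      exact hbd N hN
    · apply Filter.IsBoundedUnder.isCoboundedUnder_le
      refine ⟨0, ?_⟩
      rw [Filter.eventually_map]
      exact Filter.Eventually.of_forall (fun N => div_nonneg (Real.log_natCast_nonneg _)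
        (Nat.cast_nonneg _))
    · exact hlim.isBoundedUnder_le
  calc Real.exp (topEnt (PFS d β plus) * n) ≤ Real.exp (Real.log (a n) / n * n) :=
        Real.exp_le_exp.2 (mul_le_mul_of_nonneg_right hle hn'.le)
    _ = a n := by
        rw [div_mul_cancel₀ _ (ne_of_gt hn'), Real.exp_log (lt_of_lt_of_le one_pos (ha1 n))]

end Pool.Agent.H49.PF
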