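import Pool.Agent.H93.PF.TargetsB
import Pool.Agent.H93.PF.Zp

/-!
# Board `pfs_modules`, row REC: recurrence
-/

set_option autoImplicit false

open MeasureTheory Filter Topology Finset Pool.Agent.H93.PF

namespace Pool.Agent.H49.PF

theorem ergodic_recurrent {Y : Type} [MeasurableSpace Y] (ν : Measure Y) [IsProbabilityMeasure ν]
    (f : Y → Y) (S : Set Y) (hf : Ergodic f ν) (hS : MeasurableSet S) (hS0 : 0 < ν S) :
    ∀ᵐ y ∂ν, ∀ n : ℕ, ∃ j : ℕ, n ≤ j ∧ f^[j] y ∈ S := by
  set A : Set Y := ⋂ n : ℕ, ⋃ j : ℕ, ⋃ _ : n ≤ j, (f^[j]) ⁻¹' S with hA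
  have hmemA : ∀ y, y ∈ A ↔ ∀ n : ℕ, ∃ j : ℕ, n ≤ j ∧ f^[j] y ∈ S := by
    intro y
    simp [hA]
  have hfm : Measurable f := hf.toMeasurePreserving.measurable
  have hAm : MeasurableSet A := by
    refine MeasurableSet.iInter fun n => MeasurableSet.iUnion fun j => MeasurableSet.iUnion fun _ => ?_
    exact (hfm.iterate j) hS
  have hAinv : f ⁻¹' A = A := by
    ext y
    rw [Set.mem_preimage, hmemA, hmemA]
    constructor
    · intro h n
      obtain ⟨j, hj, hj'⟩ := h n
      exact ⟨j + 1, by omega, by rw [Function.iterate_succ_apply]; exact hj'⟩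
    · intro h n
      obtain ⟨j, hj, hj'⟩ := h (n + 1)
      refine ⟨j - 1, by omega, ?_⟩
      rw [← Function.iterate_succ_apply]
      have e : (j - 1).succ = j := by omega
      rw [e]
      exact hj'
  have hrec := hf.toMeasurePreserving.conservative.ae_mem_imp_frequently_image_mem
    hS.nullMeasurableSet
  rcases hf.toPreErgodic.ae_mem_or_ae_notMem hAm hAinv with h | h
  · filter_upwards [h] with y hy
    exact (hmemA y).1 hy
  · exfalso
    have h1 : ∀ᵐ y ∂ν, y ∉ S := by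
      filter_upwards [h, hrec] with y hy hy' hyS
      apply hy
      rw [hmemA]
      intro n
      obtain ⟨j, hj, hj'⟩ := (Filter.frequently_atTop.1 (hy' hyS)) n
      exact ⟨j, hj, hj'⟩
    have h2 : ν S = 0 := by
      rw [← compl_compl S]
      exact mem_ae_iff.1 h1
    rw [h2] at hS0
    exact lt_irrefl _ hS0

theorem pf_REC : T_REC := by
  intro Y _ ν _ T S hT hS hS0
  have h1 := ergodic_recurrent ν T S hT hS hS0
  have h2 := ergodic_recurrent ν T.symm S hT.symm hS hS0
  filter_upwards [h1, h2] with y hy1 hy2 n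
  obtain ⟨j, hj, hj'⟩ := hy1 n
  obtain ⟨i, hi, hi'⟩ := hy2 n
  exact ⟨⟨j, hj, by rw [zp_natCast]; exact hj'⟩, ⟨i, hi, by rw [zp_neg_natCast]; exact hi'⟩⟩

end Pool.Agent.H49.PF
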