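import Pool.Agent.H93.PF.TargetsC

/-!
# Board `pfs_modules`, row RQS: the sum of the products of the weights of consecutive blocks
-/

set_option autoImplicit false

open MeasureTheory Filter Topology Finset Pool.Agent.H93.PF

namespace Pool.Agent.H49.PF

theorem pf_RQS : T_RQS := by
  classical
  intro K K' k i B n h π r hr0 hr1 v
  -- the places of the blocks
  set e : Fin B × Fin k → Fin n := fun p =>
    ⟨i + (p.1 : ℕ) * k + (p.2 : ℕ), idx h p.1.2 p.2.2⟩ with he
  have hinj : Function.Injective e := by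
    rintro ⟨b, j⟩ ⟨b', j'⟩ hh
    have h1 : i + (b : ℕ) * k + (j : ℕ) = i + (b' : ℕ) * k + (j' : ℕ) := congrArg Fin.val hh
    have h2 : (b : ℕ) * k + (j : ℕ) = (b' : ℕ) * k + (j' : ℕ) := by omega
    have hk : 0 < k := lt_of_le_of_lt (Nat.zero_le _) j.2
    have h3 : (j : ℕ) = (j' : ℕ) := by
      have this : ((b : ℕ) * k + (j : ℕ)) % k = ((b' : ℕ) * k + (j' : ℕ)) % k := by rw [h2]
      rw [Nat.mul_comm (b : ℕ) k, Nat.mul_comm (b' : ℕ) k, Nat.mul_add_mod, Nat.mul_add_mod,
        Nat.mod_eq_of_lt j.2, Nat.mod_eq_of_lt j'.2] at this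
      exact this
    have h4 : (b : ℕ) = (b' : ℕ) := by
      have h5 : (b : ℕ) * k = (b' : ℕ) * k := by omega
      exact Nat.eq_of_mul_eq_mul_right hk h5
    exact Prod.ext (Fin.ext h4) (Fin.ext h3)
  -- the splitting map
  set Φ : (Fin n → Fin K') → (Fin B → Fin k → Fin K') × ({x : Fin n // x ∉ Set.range e} → Fin K') :=
    fun w => (fun b j => w (e (b, j)), fun x => w x.1) with hΦ
  have hΦinj : Function.Injective Φ := by
    intro w w' hw
    have h1 := congrArg Prod.fst hw
    have h2 := congrArg Prod.snd hw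
    funext x
    by_cases hx : x ∈ Set.range e
    · obtain ⟨⟨b, j⟩, rfl⟩ := hx
      exact congrFun (congrFun h1 b) j
    · exact congrFun h2 ⟨x, hx⟩
  set t : Fin B → Finset (Fin k → Fin K') := fun b =>
    univ.filter (fun u : Fin k → Fin K' => (fun j => π (u j)) = fun j => v (e (b, j))) with ht
  set F : (Fin B → Fin k → Fin K') × ({x : Fin n // x ∉ Set.range e} → Fin K') → ℝ :=
    fun p => ∏ b : Fin B, r (p.1 b) with hF
  have hF0 : ∀ p, 0 ≤ F p := fun p => Finset.prod_nonneg fun b _ => hr0 _
  have hcard : Fintype.card {x : Fin n // x ∉ Set.range e} = n - B * k := by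
    rw [Fintype.card_subtype_compl, Fintype.card_fin]
    have h1 : Fintype.card {x : Fin n // x ∈ Set.range e} = B * k := by
      have h2 := Set.card_range_of_injective hinj
      rw [Fintype.card_prod, Fintype.card_fin, Fintype.card_fin] at h2
      rw [← h2]
    rw [h1]
  have hstep : (∑ w ∈ univ.filter (fun w : Fin n → Fin K' => (fun j => π (w j)) = v),
      F (Φ w)) ≤ ∑ p ∈ Fintype.piFinset t ×ˢ
        (univ : Finset ({x : Fin n // x ∉ Set.range e} → Fin K')), F p := by
    rw [← Finset.sum_image (s := univ.filter (fun w : Fin n → Fin K' => (fun j => π (w j)) = v))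
      (g := Φ) (f := F) (fun a _ b _ hab => hΦinj hab)]
    apply Finset.sum_le_sum_of_subset_of_nonneg
    · intro p hp
      obtain ⟨w, hw, rfl⟩ := Finset.mem_image.1 hp
      have hw' := (Finset.mem_filter.1 hw).2
      refine Finset.mem_product.2 ⟨Fintype.mem_piFinset.2 fun b => ?_, Finset.mem_univ _⟩
      refine Finset.mem_filter.2 ⟨Finset.mem_univ _, ?_⟩
      funext j
      exact congrFun hw' (e (b, j))
    · intro p _ _
      exact hF0 p
  calc (∑ w ∈ univ.filter (fun w : Fin n → Fin K' => (fun j => π (w j)) = v),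
      ∏ b : Fin B, r fun j => w ⟨i + b * k + j, idx h b.2 j.2⟩)
      = ∑ w ∈ univ.filter (fun w : Fin n → Fin K' => (fun j => π (w j)) = v), F (Φ w) := rfl
    _ ≤ ∑ p ∈ Fintype.piFinset t ×ˢ
        (univ : Finset ({x : Fin n // x ∉ Set.range e} → Fin K')), F p := hstep
    _ = ∑ a ∈ Fintype.piFinset t, ∑ _c : {x : Fin n // x ∉ Set.range e} → Fin K',
        ∏ b : Fin B, r (a b) := by rw [Finset.sum_product]
    _ = (K' : ℝ) ^ (n - B * k) * ∏ b : Fin B, ∑ u ∈ t b, r u := by
        simp only [Finset.sum_const, Finset.card_univ, Fintype.card_fun, Fintype.card_fin, hcard,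
          nsmul_eq_mul]
        rw [← Finset.mul_sum, Finset.prod_univ_sum]
        push_cast
        rfl
    _ ≤ (K' : ℝ) ^ (n - B * k) * 1 := by
        apply mul_le_mul_of_nonneg_left
        · apply Finset.prod_le_one
          · intro b _
            exact Finset.sum_nonneg fun u _ => hr0 u
          · intro b _
            exact hr1 _
        · positivity
    _ = (K' : ℝ) ^ (n - B * k) := mul_one _

end Pool.Agent.H49.PF
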