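import Pool.Agent.H93.PF.TargetsB
import Pool.Agent.H93.PF.Zp

/-!
# Board `pfs_modules`, row SKD: distances in a skeleton
-/

set_option autoImplicit false

open MeasureTheory Filter Topology Finset Pool.Agent.H93.PF

namespace Pool.Agent.H49.PF

theorem pf_SKD : T_SKD := by
  intro L B c hB _ k
  have hgap : ∀ i : ℤ, ∃ s ∈ B k, ∃ g : ℕ, nn L k ≤ g ∧ g ≤ gg L k ∧ Nx (B k) s g ∧ s ≤ i ∧
      i < s + g := by
    intro i
    obtain ⟨s, hs, g, hg, h1, h2⟩ := exists_gap (B := B k) (hB.below k)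
      (fun s hs => by
        obtain ⟨g, -, -, hg⟩ := hB.next k s hs
        exact ⟨g, hg⟩) i
    obtain ⟨g', h3, h4, hg'⟩ := hB.next k s hs
    have e := hg.uniq hg'
    subst e
    exact ⟨s, hs, g, h3, h4, hg, h1, h2⟩
  refine ⟨?_, ?_, ?_⟩
  · intro s hs t ht hst
    obtain ⟨g, h1, h2, h3⟩ := hB.next k s hs
    by_contra hc
    exact h3.2.2 t hst (by omega) ht
  · intro i
    obtain ⟨s, hs, g, h1, h2, h3, h4, h5⟩ := hgap (i - 1)
    refine ⟨s + g, h3.2.1, by omega, by omega, ?_⟩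
    intro j hj1 hj2
    exact h3.2.2 j (by omega) hj2
  · intro i
    obtain ⟨s, hs, g, h1, h2, h3, h4, h5⟩ := hgap (i - 1)
    refine ⟨s, hs, by omega, by omega, ?_⟩
    intro j hj1 hj2
    exact h3.2.2 j hj1 (by omega)

end Pool.Agent.H49.PF
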