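import Pool.Agent.H93.PF.TargetsB
import Pool.Agent.H93.PF.Zp

/-!
# Board `pfs_modules`, row ZME: the letter at the time `0` is measurable
-/

set_option autoImplicit false

open MeasureTheory Filter Topology Finset Pool.Agent.H93.PF

namespace Pool.Agent.H49.PF

section

variable {Y : Type} [MeasurableSpace Y]

/-- the iterate at a measurable time is measurable -/
theorem measurable_zp_neg (T : Y ≃ᵐ Y) {a : Y → ℕ} (ha : Measurable a) :
    Measurable (fun y => zp T (-(a y : ℤ)) y) := by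
  have h : Measurable (fun p : ℕ × Y => zp T (-(p.1 : ℤ)) p.2) :=
    measurable_from_prod_countable_right fun n => measurable_zp T (-(n : ℤ))
  exact h.comp (ha.prodMk measurable_id)

end

theorem pf_ZME (hMES : T_MES) : T_ZME := by
  intro Y _ T d m c
  obtain ⟨h1, h2⟩ := hMES Y T
  obtain ⟨hBk, hco⟩ := h2 c.tl.L c.D c.Dm
  have hB0 : MeasurableSet c.B0 := hBk 0
  obtain ⟨hla, hna, -⟩ := h1 c.B0 hB0
  set p : Y → Y := fun y => zp T (-(la T c.B0 y : ℤ)) y with hp
  have hpm : Measurable p := measurable_zp_neg T hla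
  set F : ℕ × ℕ × (ℕ × ℕ) × ℕ → Fin d := fun x =>
    if h : x.1 < c.tl.R then c.tl.M ⟨x.1, h⟩ else
      if h' : x.1 - c.tl.R < x.2.1 - c.tl.R then
        c.enc x.2.1 x.2.2.1 x.2.2.2 ⟨x.1 - c.tl.R, h'⟩
      else c.tl.M ⟨0, c.tl.R0⟩ with hF
  have hFm : Measurable F := Measurable.of_discrete
  have e : c.z0 = fun y => F (la T c.B0 y, na T c.B0 (p y), co T c.tl.L c.D (p y), c.ms (p y)) := by
    funext y
    rfl
  rw [e]
  exact hFm.comp (hla.prodMk ((hna.comp hpm).prodMk ((hco.comp hpm).prodMk (c.msm.comp hpm))))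

end Pool.Agent.H49.PF
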