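import Pool.Agent.H93.PF.TargetsC

/-!
# Board `pfs_modules`, row HMO: the entropy is monotone
-/

set_option autoImplicit false

open MeasureTheory Filter Topology Finset Pool.Agent.H93.PF

namespace Pool.Agent.H49.PF

theorem negMulLog_sum_le {ι : Type} (s : Finset ι) (p : ι → ℝ) (hp : ∀ i ∈ s, 0 ≤ p i) :
    Real.negMulLog (∑ i ∈ s, p i) ≤ ∑ i ∈ s, Real.negMulLog (p i) := by
  unfold Real.negMulLog
  rw [← Finset.sum_neg_distrib, Finset.sum_mul]
  apply Finset.sum_le_sum
  intro i hi
  rcases (hp i hi).eq_or_lt with h0 | h0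
  · rw [← h0]
    simp
  · have h1 : p i ≤ ∑ i ∈ s, p i := Finset.single_le_sum hp hi
    have h2 := Real.log_le_log h0 h1
    nlinarith

section

variable {Y : Type} [MeasurableSpace Y]

theorem measurableSet_cyl {T : Y → Y} {K : ℕ} {P : Y → Fin K} (hT : Measurable T)
    (hP : Measurable P) {n : ℕ} (w : Fin n → Fin K) : MeasurableSet (cyl T P w) := by
  have e : cyl T P w = ⋂ i : Fin n, (fun y => P (T^[(i : ℕ)] y)) ⁻¹' {w i} := by
    ext y
    simp [cyl]
  rw [e]
  exact MeasurableSet.iInter fun i => (hP.comp (hT.iterate _)) (measurableSet_singleton _)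

theorem real_cyl_sum (ν : Measure Y) [IsProbabilityMeasure ν] {T : Y → Y} {K K' : ℕ}
    {P : Y → Fin K} {P' : Y → Fin K'} (π : Fin K' → Fin K) (hT : Measurable T)
    (hP' : Measurable P') (hπ : ∀ y, P y = π (P' y)) {n : ℕ} (v : Fin n → Fin K) :
    ν.real (cyl T P v) =
      ∑ w ∈ univ.filter (fun w : Fin n → Fin K' => (fun j => π (w j)) = v),
        ν.real (cyl T P' w) := by
  have e : cyl T P v = ⋃ w ∈ univ.filter (fun w : Fin n → Fin K' => (fun j => π (w j)) = v),
      cyl T P' w := by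
    ext y
    simp only [cyl, Set.mem_setOf_eq, Set.mem_iUnion, Finset.mem_filter, Finset.mem_univ,
      true_and, exists_prop]
    constructor
    · intro h
      refine ⟨fun i => P' (T^[(i : ℕ)] y), ?_, fun i => rfl⟩
      funext j
      rw [← hπ, h j]
    · rintro ⟨w, hw, h⟩ i
      rw [hπ, h i, ← hw]
  rw [e, measureReal_biUnion_finset]
  · intro w _ w' _ hww
    refine Set.disjoint_left.2 fun y hy hy' => hww ?_
    funext i
    exact (hy i).symm.trans (hy' i)
  · intro w _
    exact measurableSet_cyl hT hP' w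

theorem hn_mono (ν : Measure Y) [IsProbabilityMeasure ν] {T : Y → Y} {K K' : ℕ}
    {P : Y → Fin K} {P' : Y → Fin K'} (π : Fin K' → Fin K) (hT : Measurable T)
    (hP' : Measurable P') (hπ : ∀ y, P y = π (P' y)) (n : ℕ) :
    Hn ν T P n ≤ Hn ν T P' n := by
  unfold Hn
  rw [← Finset.sum_fiberwise (univ : Finset (Fin n → Fin K'))
    (fun w => fun j => π (w j)) (fun w => Real.negMulLog (ν.real (cyl T P' w)))]
  apply Finset.sum_le_sum
  intro v _
  rw [real_cyl_sum ν π hT hP' hπ v]
  exact negMulLog_sum_le _ _ fun w _ => measureReal_nonneg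

end

theorem pf_HMO (hHNB : T_HNB) : T_HMO := by
  intro Y _ ν _ T K K' P P' π hP' hπ
  have hP : Measurable P := by
    have e : P = π ∘ P' := funext hπ
    rw [e]
    exact (Measurable.of_discrete).comp hP'
  obtain ⟨-, -, -, h1⟩ := hHNB Y ν T K P hP
  obtain ⟨-, -, h2, -⟩ := hHNB Y ν T K' P' hP'
  unfold entP
  apply Filter.limsup_le_limsup
  · exact Filter.Eventually.of_forall fun n =>
      div_le_div_of_nonneg_right (hn_mono ν π T.measurable hP' hπ n) (Nat.cast_nonneg n)
  · exact h1.isCoboundedUnder_le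
  · exact h2

end Pool.Agent.H49.PF
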